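import Pool.Agent.helper82.UM.Spec
import Pool.Agent.helper91.HZ.Main
import Pool.Agent.helper21.FF.FF

/-!
# um:UHT (MP_2e0e07_nt): the uniform horizontal theorem
-/

set_option autoImplicit false

namespace Pool.Agent.UM

open Matrix Polynomial Pool.Agent.GO Pool.Agent.AR Pool.Agent.RG Pool.Agent.HZ Pool.Agent.DS
  Pool.Agent.AX MeasureTheory NumberField

theorem UHT_kerV {Γ G F' : Type} [Group Γ] [Group G] [CommRing F'] {r : ℕ} {n : Fin r → ℕ}
    (f : Γ →* G) (W : (i : Fin r) → G →* Matrix (Fin (n i)) (Fin (n i)) F') :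
    kerV (fun i => (W i).comp f) = (kerV W).comap f := by
  unfold kerV
  rw [Subgroup.comap_iInf]
  rfl

theorem UHT_adKer {Γ G F : Type} [Group Γ] [Group G] [Field F]
    (f : Γ →* G) (S : G →* Matrix (Fin 2) (Fin 2) F) :
    adKer (S.comp f) = (adKer S).comap f := rfl

theorem UHT_deg {Γ G F F' : Type} [Group Γ] [Group G] [Field F] [CommRing F'] {r : ℕ} {n : Fin r → ℕ}
    (f : Γ →* G) (hf : Function.Surjective f)
    (W : (i : Fin r) → G →* Matrix (Fin (n i)) (Fin (n i)) F') (S : G →* Matrix (Fin 2) (Fin 2) F) :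
    adDegree (fun i => (W i).comp f) (S.comp f) = adDegree W S := by
  unfold adDegree
  rw [UHT_kerV, UHT_adKer, Subgroup.relIndex_comap, Subgroup.map_comap_eq_self_of_surjective hf]

theorem UHT_ne {G F F' : Type} [Group G] [Field F] [CommRing F'] {r : ℕ} {n : Fin r → ℕ}
    (W : (i : Fin r) → G →* Matrix (Fin (n i)) (Fin (n i)) F') (S : G →* Matrix (Fin 2) (Fin 2) F)
    (h : S.ker.FiniteIndex) : adDegree W S ≠ 0 := by
  have hle : S.ker ≤ adKer S := by
    intro g hg
    refine ⟨1, ?_⟩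
    rw [one_smul]
    exact hg
  have h1 : (adKer S).FiniteIndex := Subgroup.finiteIndex_of_le hle
  intro h0
  have h2 : (adKer S).relIndex ⊤ = 0 := Subgroup.relIndex_eq_zero_of_le_right le_top h0
  rw [Subgroup.relIndex_top_right] at h2
  exact h1.index_ne_zero h2

theorem UHT_eval {J : Type} {κ : J → Type} [∀ j, Field (κ j)] {Γ m : Type} [Group Γ]
    [Fintype m] [DecidableEq m] (W : ∀ j, Γ →* Matrix m m (κ j)) (x : J → Γ) (c : ∀ j, κ j) (j : J) :
    ((mt W x).charpoly.eval c) j = (W j (x j)).charpoly.eval (c j) := by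
  have h2 : W j (x j) = (mt W x).map (Pi.evalRingHom κ j) := rfl
  rw [h2, Matrix.charpoly_map]
  have h3 := Polynomial.eval_map_apply (p := (mt W x).charpoly) (Pi.evalRingHom κ j) c
  exact h3.symm

theorem UHT_core (r : ℕ) (n : Fin r → ℕ) (p : ℕ → ℕ) (κ : ℕ → Type) [∀ k, Field (κ k)]
    [∀ k, IsAlgClosed (κ k)] [hchar : ∀ k, CharP (κ k) (p k)] (G : ℕ → Type) [∀ k, Group (G k)]
    (W : ∀ k, (i : Fin r) → G k →* Matrix (Fin (n i)) (Fin (n i)) (ZMod (p k)))
    (S : ∀ k, G k →* Matrix (Fin 2) (Fin 2) (κ k)) (hp : ∀ k, (p k).Prime)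
    (hW : ∀ k i, (W k i).ker.FiniteIndex) (hS : ∀ k, (S k).ker.FiniteIndex)
    (hB : ∀ k, Big (p k) (S k)) (hlt : ∀ k, k * adDegree (W k) (S k) < p k) (g : ∀ k, G k)
    (hno : ∀ k, ¬ Ratio (fun i => ((W k i (g k)).map (ZMod.castHom (dvd_refl (p k)) (κ k))).charpoly)
      (S k (g k)).trace (S k (g k)).det) : False := by
  let pr : ∀ k, (∀ k, G k) →* G k := fun k => Pi.evalMonoidHom G k
  have hpr : ∀ k, Function.Surjective (pr k) := by
    intro k y
    classical
    refine ⟨Pi.mulSingle k y, ?_⟩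
    show (Pi.mulSingle k y : ∀ k, G k) k = y
    rw [Pi.mulSingle_eq_same]
  let V : ∀ k, (i : Fin r) → (∀ k, G k) →* Matrix (Fin (n i)) (Fin (n i)) (ZMod (p k)) :=
    fun k i => (W k i).comp (pr k)
  let ρ : ∀ k, (∀ k, G k) →* Matrix (Fin 2) (Fin 2) (κ k) := fun k => (S k).comp (pr k)
  have hdeg : ∀ k, adDegree (V k) (ρ k) = adDegree (W k) (S k) :=
    fun k => UHT_deg (pr k) (hpr k) (W k) (S k)
  have hlt' : ∀ k, k * adDegree (V k) (ρ k) < p k := fun k => by rw [hdeg]; exact hlt k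
  have hne : ∀ k, adDegree (V k) (ρ k) ≠ 0 := fun k => by
    rw [hdeg]; exact UHT_ne (W k) (S k) (hS k)
  have hkp : ∀ k, k < p k := by
    intro k
    refine lt_of_le_of_lt ?_ (hlt' k)
    exact Nat.le_mul_of_pos_right k (Nat.pos_of_ne_zero (hne k))
  have htends : ∀ m : ℕ, {j | p j ≤ m}.Finite := by
    intro m
    apply (Set.finite_Iic m).subset
    intro j hj
    exact (hkp j).le.trans hj
  have hinf : ∀ c : ℕ, {j | c * adDegree (V j) (ρ j) < p j}.Infinite := by
    intro c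
    apply (Set.Ici_infinite c).mono
    intro j hj
    exact lt_of_le_of_lt (Nat.mul_le_mul_right _ hj) (hlt' j)
  obtain ⟨𝒰, hlim, hdl, -⟩ := ULT p (fun j => adDegree (V j) (ρ j)) htends hinf
  obtain ⟨k, _, _, _, π, hUP⟩ := UPF 𝒰 κ p hp (fun j => inferInstance) hlim
  let B : ∀ j, (i : Fin r) → (∀ k, G k) →* Matrix (Fin (n i)) (Fin (n i)) (κ j) :=
    fun j i => FWD_bc (p j) (κ j) (V j i)
  let W' : ∀ j, (∀ k, G k) →* Matrix (Σ i : Fin r, Fin (n i)) (Σ i : Fin r, Fin (n i)) (κ j) :=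
    fun j => dirSum (B j)
  -- finite range
  have hfr : ∀ j, (Set.range (W' j)).Finite := by
    intro j
    have hfi : (⨅ i, (V j i).ker : Subgroup (∀ k, G k)).FiniteIndex := by
      apply Subgroup.finiteIndex_iInf
      intro i
      have h1 : (V j i).ker = ((W j i).ker).comap (pr j) := rfl
      rw [h1]
      constructor
      rw [Subgroup.index_comap_of_surjective _ (hpr j)]
      exact (hW j i).index_ne_zero
    refine FWD_range (W' j) _ hfi ?_
    intro g hg
    have hg' : ∀ i, V j i g = 1 := fun i => (Subgroup.mem_iInf.1 hg) i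
    have e : (fun i => B j i g) = (1 : (i : Fin r) → Matrix (Fin (n i)) (Fin (n i)) (κ j)) := by
      funext i
      show FWD_bc (p j) (κ j) (V j i) g = 1
      rw [FWD_bc_apply, hg' i, Matrix.map_one _ (map_zero _) (map_one _)]
    show Matrix.blockDiagonal' (fun i => B j i g) = 1
    rw [e, Matrix.blockDiagonal'_one]
  -- entries are natural numbers
  have hnat : ∀ j g a b, ∃ s : ℕ, W' j g a b = (s : κ j) := by
    rintro j g ⟨i, a⟩ ⟨i', b⟩
    have : NeZero (p j) := ⟨(hp j).ne_zero⟩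
    by_cases hi : i = i'
    · subst hi
      refine ⟨(V j i g a b).val, ?_⟩
      show Matrix.blockDiagonal' (fun i => B j i g) ⟨i, a⟩ ⟨i, b⟩ = _
      rw [Matrix.blockDiagonal'_apply_eq]
      show ZMod.castHom (dvd_refl (p j)) (κ j) (V j i g a b) = _
      conv_lhs => rw [← ZMod.natCast_zmod_val (V j i g a b)]
      rw [map_natCast]
    · refine ⟨0, ?_⟩
      show Matrix.blockDiagonal' (fun i => B j i g) ⟨i, a⟩ ⟨i', b⟩ = _
      rw [Matrix.blockDiagonal'_apply_ne _ _ _ hi, Nat.cast_zero]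
  -- the number of elements
  have hcount : ∀ c : ℕ, ∀ᶠ j in (𝒰 : Filter ℕ), ∃ s : Finset (Matrix (Fin 2) (Fin 2) (κ j)),
      c * s.card ≤ p j ∧ ∀ h, W' j h = 1 → (ρ j h).det = 1 → ρ j h ∈ s := by
    intro c
    filter_upwards [hdl (2 * c)] with j hj
    obtain ⟨s, hs, hs'⟩ := KCD (V j) (ρ j) (hne j)
    refine ⟨s, ?_, ?_⟩
    · calc c * s.card ≤ c * (2 * adDegree (V j) (ρ j)) := Nat.mul_le_mul_left c hs
        _ = 2 * c * adDegree (V j) (ρ j) := by ring
        _ ≤ p j := hj.le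
    · intro h hW hdeth
      refine hs' h ?_ hdeth
      intro i
      apply FWD_bc_one (p j) (κ j) (V j i) h
      have hW' : Matrix.blockDiagonal' (fun i => B j i h) = 1 := hW
      have e1 : Matrix.blockDiagonal' (fun i => B j i h) =
          Matrix.blockDiagonal' (1 : (i : Fin r) → Matrix (Fin (n i)) (Fin (n i)) (κ j)) := by
        rw [hW', Matrix.blockDiagonal'_one]
      have e2 := Matrix.blockDiagonal'_injective e1
      exact congrFun e2 i
  have hirr : ∀ j, Irred fun g => ρ j g := by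
    intro j
    refine ⟨(hB j).1.1, fun U hU => (hB j).1.2 U ?_⟩
    intro y u hu
    obtain ⟨x, rfl⟩ := hpr j y
    exact hU x u hu
  have hord : ∀ j, ∃ g, orderOf (ρ j g) = p j := by
    intro j
    obtain ⟨y, hy⟩ := (hB j).2
    obtain ⟨x, rfl⟩ := hpr j y
    exact ⟨x, hy⟩
  have hinj := inj_all 𝒰 p π hUP W' ρ hnat hcount
  have hspn := SPN NIL LCJ 𝒰 p π hUP W' ρ hfr hirr hord
  have hlcj := LCJ p π W' ρ
  have hads := ADS (star π W') (star π ρ) (LL π p W' ρ) hlcj hinj hspn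
  obtain ⟨α, β, γ, ε, hα0, hβ0, hsum, hprod, hγ, hε, hx⟩ :=
    ad_roots (star π W') (star π ρ) ⊤ 1 1 hads (fun _ => g) (Subgroup.mem_top _)
  rw [Fin.prod_univ_one, Fin.prod_univ_one, div_mul_eq_mul_div, div_eq_iff hβ0] at hx
  obtain ⟨a, rfl⟩ := hUP.surj α
  obtain ⟨b, rfl⟩ := hUP.surj β
  obtain ⟨c, hc⟩ := hUP.surj (γ 0)
  obtain ⟨e, he⟩ := hUP.surj (ε 0)
  have hγ0 := hγ 0
  have hε0 := hε 0
  rw [← hc] at hx hγ0
  rw [← he] at hx hε0
  have hρ : star π ρ (fun _ => g) = (mt ρ (fun _ => g)).map π := rfl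
  have hWW : star π W' (fun _ => g) = (mt W' (fun _ => g)).map π := rfl
  -- the five equations
  have e1 : ∀ᶠ j in (𝒰 : Filter ℕ), a j + b j = (S j (g j)).trace := by
    have h1 : π (a + b - (mt ρ (fun _ => g)).trace) = 0 := by
      rw [map_sub, map_add, hsum, hρ, sub_eq_zero]
      exact AddMonoidHom.map_trace π.toAddMonoidHom _ |>.symm
    filter_upwards [(hUP.zero _).1 h1] with j hj
    have h2 : a j + b j - (mt ρ (fun _ => g)).trace j = 0 := hj
    rw [sub_eq_zero] at h2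
    rw [h2]
    simp only [Matrix.trace, Finset.sum_apply]
    rfl
  have e2 : ∀ᶠ j in (𝒰 : Filter ℕ), a j * b j = (S j (g j)).det := by
    have h1 : π (a * b - (mt ρ (fun _ => g)).det) = 0 := by
      rw [map_sub, map_mul, hprod, hρ, sub_eq_zero]
      exact (RingHom.map_det π _).symm
    filter_upwards [(hUP.zero _).1 h1] with j hj
    have h2 : a j * b j - (mt ρ (fun _ => g)).det j = 0 := hj
    rw [sub_eq_zero] at h2
    rw [h2]
    have h3 := RingHom.map_det (Pi.evalRingHom κ j) (mt ρ (fun _ => g))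
    exact h3
  have e3 : ∀ d : ∀ j, κ j, (star π W' (fun _ => g)).charpoly.IsRoot (π d) →
      ∀ᶠ j in (𝒰 : Filter ℕ), (∏ i, ((W j i (g j)).map
        (ZMod.castHom (dvd_refl (p j)) (κ j))).charpoly).IsRoot (d j) := by
    intro d hd
    have h1 : π ((mt W' (fun _ => g)).charpoly.eval d) = 0 := by
      rw [hWW, Matrix.charpoly_map] at hd
      rw [← Polynomial.eval_map_apply]
      exact hd
    filter_upwards [(hUP.zero _).1 h1] with j hj
    rw [UHT_eval] at hj
    have h2 : (W' j g).charpoly = ∏ i, ((W j i (g j)).map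
        (ZMod.castHom (dvd_refl (p j)) (κ j))).charpoly := Pool.Agent.RG.DSM.charpoly_bd fun i => B j i g
    rw [← h2]
    exact hj
  have e4 : ∀ᶠ j in (𝒰 : Filter ℕ), a j * e j = b j * c j := by
    have h1 : π (a * e - b * c) = 0 := by
      rw [map_sub, map_mul, map_mul, hx, mul_comm, sub_self]
    filter_upwards [(hUP.zero _).1 h1] with j hj
    exact sub_eq_zero.1 hj
  obtain ⟨j, h1, h2, h3, h4, h5⟩ := (e1.and (e2.and ((e3 c hγ0).and ((e3 e hε0).and e4)))).exists
  exact hno j ⟨a j, b j, c j, e j, h1, h2, h3, h4, h5⟩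

/-- a counterexample for the constant `c` -/
structure UHT_cex (r : ℕ) (n : Fin r → ℕ) (c : ℕ) where
  p : ℕ
  κ : Type
  iF : Field κ
  iA : IsAlgClosed κ
  iC : CharP κ p
  G : Type
  iG : Group G
  W : (i : Fin r) → G →* Matrix (Fin (n i)) (Fin (n i)) (ZMod p)
  S : G →* Matrix (Fin 2) (Fin 2) κ
  hp : p.Prime
  hW : ∀ i, (W i).ker.FiniteIndex
  hS : S.ker.FiniteIndex
  hB : Big p S
  hlt : c * adDegree W S < p
  g : G
  hno : ¬ Ratio (fun i => ((W i g).map (ZMod.castHom (dvd_refl p) κ)).charpoly) (S g).trace (S g).det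

/-- UHT -/
theorem UHT : UHT_stmt := by
  intro r n
  by_contra hcon
  push Not at hcon
  have hne : ∀ c : ℕ, Nonempty (UHT_cex r n c) := by
    intro c
    obtain ⟨p, κ, i1, i2, i3, G, i4, W, S, hp, hW, hS, hB, hlt, g, hno⟩ := hcon c
    exact ⟨⟨p, κ, i1, i2, i3, G, i4, W, S, hp, hW, hS, hB, hlt, g, hno⟩⟩
  let x : ∀ c, UHT_cex r n c := fun c => (hne c).some
  exact @UHT_core r n (fun k => (x k).p) (fun k => (x k).κ) (fun k => (x k).iF) (fun k => (x k).iA)
    (fun k => (x k).iC) (fun k => (x k).G) (fun k => (x k).iG) (fun k => (x k).W) (fun k => (x k).S)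
    (fun k => (x k).hp) (fun k => (x k).hW) (fun k => (x k).hS) (fun k => (x k).hB)
    (fun k => (x k).hlt) (fun k => (x k).g) (fun k => (x k).hno)

end Pool.Agent.UM
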